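import Mathlib

set_option autoImplicit false

/-! The volume of a bounded set whose sections along one coordinate axis are short. -/

open MeasureTheory Set Filter Topology ENNReal NNReal Metric

namespace Pool.Agent.R251.Lam

theorem fib {d : ℕ} {A : Set (EuclideanSpace ℝ (Fin (d + 1)))} (hA : MeasurableSet A)
    {x₀ : EuclideanSpace ℝ (Fin (d + 1))} {R ℓ : ℝ} (hR : A ⊆ closedBall x₀ R)
    (i : Fin (d + 1))
    (h : ∀ x ∈ A, ∀ t : ℝ, x + t • EuclideanSpace.single i (1:ℝ) ∈ A → |t| ≤ ℓ) :
    volume A ≤ ENNReal.ofReal (2 * ℓ) * ENNReal.ofReal (2 * R) ^ d := by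
  classical
  have e1 := PiLp.volume_preserving_toLp (Fin (d + 1))
  have e2 := (volume_preserving_piFinSuccAbove (fun _ : Fin (d + 1) => ℝ) i)
  set A1 : Set (Fin (d + 1) → ℝ) := (WithLp.toLp 2) ⁻¹' A with hA1
  have hA1m : MeasurableSet A1 := hA.preimage e1.measurable
  have v1 : volume A = volume A1 := (e1.measure_preimage hA.nullMeasurableSet).symm
  set A2 : Set (ℝ × (Fin d → ℝ)) := (MeasurableEquiv.piFinSuccAbove (fun _ : Fin (d + 1) => ℝ) i) '' A1
    with hA2
  have hA2m : MeasurableSet A2 := (MeasurableEquiv.measurableSet_image _).2 hA1m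
  have v2 : volume A1 = volume A2 := by
    rw [← e2.measure_preimage hA2m.nullMeasurableSet, hA2,
      preimage_image_eq _ (MeasurableEquiv.injective _)]
  have mem2 : ∀ (t : ℝ) (y : Fin d → ℝ), (t, y) ∈ A2 ↔
      WithLp.toLp 2 (i.insertNth t y : Fin (d + 1) → ℝ) ∈ A := by
    intro t y
    rw [hA2, ← MeasurableEquiv.preimage_symm, mem_preimage]
    rfl
  have hcoord : ∀ (t : ℝ) (y : Fin d → ℝ), (t, y) ∈ A2 →
      ∀ j, y j ∈ Icc (x₀ (i.succAbove j) - R) (x₀ (i.succAbove j) + R) := by
    intro t y hty j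
    rw [mem2] at hty
    have h1 := hR hty
    rw [mem_closedBall, dist_eq_norm] at h1
    have h2 := (PiLp.norm_apply_le (WithLp.toLp 2 (i.insertNth t y : Fin (d + 1) → ℝ) - x₀)
      (i.succAbove j)).trans h1
    rw [PiLp.sub_apply] at h2
    have h3 : (WithLp.toLp 2 (i.insertNth t y : Fin (d + 1) → ℝ) :
        EuclideanSpace ℝ (Fin (d + 1))) (i.succAbove j) = y j := by simp
    rw [h3, Real.norm_eq_abs, abs_le] at h2
    constructor <;> linarith [h2.1, h2.2]
  rw [v1, v2, Measure.volume_eq_prod, Measure.prod_apply_symm hA2m]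
  set Q : Set (Fin d → ℝ) := Set.pi univ fun j => Icc (x₀ (i.succAbove j) - R)
    (x₀ (i.succAbove j) + R) with hQ
  have hQm : MeasurableSet Q := MeasurableSet.univ_pi fun _ => measurableSet_Icc
  have hfib : ∀ y : Fin d → ℝ, volume ((fun t : ℝ => (t, y)) ⁻¹' A2) ≤
      Q.indicator (fun _ => ENNReal.ofReal (2 * ℓ)) y := by
    intro y
    rcases ((fun t : ℝ => (t, y)) ⁻¹' A2).eq_empty_or_nonempty with h0 | ⟨t, ht⟩
    · rw [h0, measure_empty]; exact zero_le
    · have hyQ : y ∈ Q := by
        rw [hQ, mem_univ_pi]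
        exact hcoord t y ht
      rw [indicator_of_mem hyQ]
      have hsub : ((fun t : ℝ => (t, y)) ⁻¹' A2) ⊆ Icc (t - ℓ) (t + ℓ) := by
        intro s hs
        have h1 := (mem2 t y).1 ht
        have h2 := (mem2 s y).1 hs
        have h3 := h _ h1 (s - t) (by
          convert h2 using 1
          ext j
          rw [PiLp.add_apply, PiLp.smul_apply]
          rcases eq_or_ne j i with rfl | hj
          · simp
          · obtain ⟨j', rfl⟩ := Fin.exists_succAbove_eq hj
            simp [hj])
        rw [abs_le] at h3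
        constructor <;> linarith [h3.1, h3.2]
      refine (measure_mono hsub).trans ?_
      rw [Real.volume_Icc]
      apply ENNReal.ofReal_le_ofReal
      linarith
  refine (lintegral_mono hfib).trans ?_
  rw [lintegral_indicator hQm, setLIntegral_const]
  gcongr
  rw [hQ, volume_pi_pi]
  simp only [Real.volume_Icc]
  have : ∀ j : Fin d, x₀ (i.succAbove j) + R - (x₀ (i.succAbove j) - R) = 2 * R := fun j => by ring
  simp [this]

end Pool.Agent.R251.Lam
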