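import Pool.Agent.R251.Lam.Piece

set_option autoImplicit false

/-! Directions of segments on which a smooth function is nearly constant: level sets. -/

open MeasureTheory Set Filter Topology ENNReal NNReal Metric

namespace Pool.Agent.R251.Lam

open Pool.Agent.W770.SA

/-- Maximal separated sets. -/
theorem exists_net {X : Type*} [PseudoMetricSpace X] (Y : Set X) (r : ℝ) (hr : 0 < r) (N : ℕ)
    (hN : ∀ s : Finset X, (∀ x ∈ s, x ∈ Y) → (∀ x ∈ s, ∀ y ∈ s, x ≠ y → r ≤ dist x y) →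
      s.card ≤ N) :
    ∃ s : Finset X, (∀ x ∈ s, x ∈ Y) ∧ (∀ x ∈ s, ∀ y ∈ s, x ≠ y → r ≤ dist x y) ∧
      ∀ x ∈ Y, ∃ y ∈ s, dist x y < r := by
  classical
  set P : ℕ → Prop := fun m => ∃ s : Finset X, (∀ x ∈ s, x ∈ Y) ∧
    (∀ x ∈ s, ∀ y ∈ s, x ≠ y → r ≤ dist x y) ∧ s.card = m with hP
  have h0 : P 0 := ⟨∅, by simp, by simp, rfl⟩
  have h1 := Nat.findGreatest_spec (P := P) (Nat.zero_le N) h0
  obtain ⟨s, hs1, hs2, hs3⟩ := h1
  refine ⟨s, hs1, hs2, ?_⟩
  intro x hx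
  by_contra hcon
  push Not at hcon
  have hxs : x ∉ s := by
    intro hmem
    have := hcon x hmem
    rw [dist_self] at this
    linarith
  have hP1 : P (Nat.findGreatest P N + 1) := by
    refine ⟨insert x s, ?_, ?_, ?_⟩
    · intro y hy
      rcases Finset.mem_insert.1 hy with rfl | hy
      · exact hx
      · exact hs1 y hy
    · intro y hy z hz hyz
      rcases Finset.mem_insert.1 hy with rfl | hy'
      · rcases Finset.mem_insert.1 hz with rfl | hz'
        · exact absurd rfl hyz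
        · exact hcon z hz'
      · rcases Finset.mem_insert.1 hz with rfl | hz'
        · rw [dist_comm]; exact hcon y hy'
        · exact hs2 y hy' z hz' hyz
    · rw [Finset.card_insert_of_notMem hxs, hs3]
  have hle : Nat.findGreatest P N + 1 ≤ N := by
    obtain ⟨s', h1, h2, h3⟩ := hP1
    rw [← h3]
    exact hN s' h1 h2
  exact Nat.findGreatest_is_greatest (Nat.lt_succ_self _) hle hP1

variable {d : ℕ} {F : EuclideanSpace ℝ (Fin (d + 1)) → ℝ} {k : ℕ}
  {z₀ : EuclideanSpace ℝ (Fin (d + 1))} {R A L m : ℝ} {i : Fin (d + 1)}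

theorem cc_nonneg (h : Chart F k z₀ R A L m i) : 0 ≤ cc d R L m := by
  have := h.R0
  have := h.m0
  have := h.L0
  have := omg_pos (d := d)
  unfold cc
  positivity

theorem cp_nonneg (h : Chart F k z₀ R A L m i) {M : ℝ} (hM : 0 ≤ M) : 0 ≤ cp d k A m M := by
  have := h.m0
  have := h.A0
  have := cst1_pos (n := d + 1) (by omega)
  unfold cp
  positivity

theorem level (h : Chart F k z₀ R A L m i) (hdk : d ≤ k) {c r : ℝ} (hr : 0 < r) (hrR : r ≤ R)
    {M : ℝ} (hM : 0 ≤ M) (S : Set (sphere (0 : EuclideanSpace ℝ (Fin (d + 1))) 1))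
    (hS : ∀ e ∈ S, ∃ z ∈ ball z₀ R, |F z - c| ≤ r ^ (k + 1) ∧
      ∀ t ∈ Icc (0:ℝ) r, |F (z + t • (e : EuclideanSpace ℝ (Fin (d + 1)))) - F z| ≤
        M * r ^ (k + 1)) :
    sig (d + 1) S ≤ ENNReal.ofReal (cc d R L m * cp d k A m M * r ^ (k - d)) := by
  classical
  have hr1 : r ≤ 1 := hrR.trans h.R1
  have hρr : r ^ (k + 1) ≤ r := by
    calc r ^ (k + 1) = r ^ k * r := pow_succ _ _
      _ ≤ 1 * r := by gcongr; exact pow_le_one₀ hr.le hr1
      _ = r := one_mul _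
  obtain ⟨N, hN⟩ := exists_nat_ge (cc d R L m / r ^ d)
  obtain ⟨s, hs1, hs2, hs3⟩ := exists_net {x | x ∈ ball z₀ R ∧ |F x - c| ≤ r ^ (k + 1)} r hr N (by
    intro s h1 h2
    have h3 := count h hr hrR hρr s h1 h2
    have h4 : (s.card : ℝ) ≤ cc d R L m / r ^ d := by
      rw [le_div_iff₀ (by positivity)]; exact h3
    exact_mod_cast h4.trans hN)
  have hcard := count h hr hrR hρr s hs1 hs2
  have hcov : S ⊆ ⋃ x ∈ s, {e : sphere (0 : EuclideanSpace ℝ (Fin (d + 1))) 1 |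
      ∃ z ∈ ball x r, |F z - c| ≤ r ^ (k + 1) ∧
      ∀ t ∈ Icc (0:ℝ) r, |F (z + t • (e : EuclideanSpace ℝ (Fin (d + 1)))) - F z| ≤
        M * r ^ (k + 1)} := by
    intro e he
    obtain ⟨z, hz, hzc, hzt⟩ := hS e he
    obtain ⟨x, hx, hxz⟩ := hs3 z ⟨hz, hzc⟩
    rw [mem_iUnion₂]
    exact ⟨x, hx, z, hxz, hzc, hzt⟩
  calc sig (d + 1) S ≤ ∑ x ∈ s, sig (d + 1) {e : sphere (0 : EuclideanSpace ℝ (Fin (d + 1))) 1 |
        ∃ z ∈ ball x r, |F z - c| ≤ r ^ (k + 1) ∧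
        ∀ t ∈ Icc (0:ℝ) r, |F (z + t • (e : EuclideanSpace ℝ (Fin (d + 1)))) - F z| ≤
          M * r ^ (k + 1)} := (measure_mono hcov).trans (measure_biUnion_finset_le _ _)
    _ ≤ ∑ x ∈ s, ENNReal.ofReal (cp d k A m M * r ^ k) := by
        apply Finset.sum_le_sum
        intro x hx
        exact piece h hr hrR hM (hs1 x hx).1 _ fun e he => he
    _ = ENNReal.ofReal (s.card * (cp d k A m M * r ^ k)) := by
        rw [Finset.sum_const, nsmul_eq_mul, ← ENNReal.ofReal_natCast,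
          ← ENNReal.ofReal_mul (by positivity)]
    _ ≤ _ := by
        apply ENNReal.ofReal_le_ofReal
        have h1 : r ^ k = r ^ d * r ^ (k - d) := by
          rw [← pow_add]
          congr 1
          omega
        rw [h1]
        have h2 := cp_nonneg h hM
        calc (s.card : ℝ) * (cp d k A m M * (r ^ d * r ^ (k - d)))
            = (s.card * r ^ d) * (cp d k A m M * r ^ (k - d)) := by ring
          _ ≤ cc d R L m * (cp d k A m M * r ^ (k - d)) := by gcongr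
          _ = _ := by ring

/-- Efficient covers of sets of Hausdorff measure zero. -/
theorem cover {σ : ℝ} (hσ : 0 < σ) {C : Set ℝ} (hC : μH[σ] C = 0) {η : ℝ} (hη : 0 < η) :
    ∃ c ρ : ℕ → ℝ, (∀ j, 0 < ρ j ∧ ρ j ≤ η) ∧ C ⊆ ⋃ j, closedBall (c j) (ρ j) ∧
      ∑' j, ENNReal.ofReal (ρ j ^ σ) ≤ ENNReal.ofReal η := by
  classical
  rw [Measure.hausdorffMeasure_apply] at hC
  have hr : (0 : ℝ≥0∞) < ENNReal.ofReal η := ENNReal.ofReal_pos.2 hη
  have h1 : (⨅ (t : ℕ → Set ℝ) (_ : C ⊆ ⋃ n, t n) (_ : ∀ n, ediam (t n) ≤ ENNReal.ofReal η),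
      ∑' n, ⨆ _ : (t n).Nonempty, ediam (t n) ^ σ) = 0 := by
    refine le_antisymm ?_ zero_le
    rw [← hC]
    exact le_iSup₂ (f := fun (r : ℝ≥0∞) (_ : 0 < r) => ⨅ (t : ℕ → Set ℝ) (_ : C ⊆ ⋃ n, t n)
      (_ : ∀ n, ediam (t n) ≤ r), ∑' n, ⨆ _ : (t n).Nonempty, ediam (t n) ^ σ)
      (ENNReal.ofReal η) hr
  have hhalf : (0 : ℝ≥0∞) < ENNReal.ofReal (η / 2) := ENNReal.ofReal_pos.2 (by positivity)
  rw [← h1, iInf_lt_iff] at hhalf
  obtain ⟨t, ht⟩ := hhalf
  rw [iInf_lt_iff] at ht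
  obtain ⟨hcov, ht⟩ := ht
  rw [iInf_lt_iff] at ht
  obtain ⟨hdiam, hsum⟩ := ht
  obtain ⟨ε, hε, hεsum⟩ := ENNReal.exists_pos_sum_of_countable
    (ε := ENNReal.ofReal (η / 2)) (ENNReal.ofReal_pos.2 (by positivity)).ne' ℕ
  have hfin : ∀ j, ediam (t j) ≠ ∞ := fun j => ((hdiam j).trans_lt ENNReal.ofReal_lt_top).ne
  set ρ : ℕ → ℝ := fun j => max (ediam (t j)).toReal (min η ((ε j : ℝ) ^ (1 / σ))) with hρ
  set c : ℕ → ℝ := fun j => if h : (t j).Nonempty then h.some else 0 with hc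
  have hε' : ∀ j, (0:ℝ) < ε j := fun j => by exact_mod_cast hε j
  have hb0 : ∀ j, 0 < min η ((ε j : ℝ) ^ (1 / σ)) := fun j =>
    lt_min hη (Real.rpow_pos_of_pos (hε' j) _)
  have hρ0 : ∀ j, 0 < ρ j := fun j => lt_of_lt_of_le (hb0 j) (le_max_right _ _)
  have hsup : ∀ j, (⨆ _ : (t j).Nonempty, ediam (t j) ^ σ) = ediam (t j) ^ σ := by
    intro j
    rcases (t j).eq_empty_or_nonempty with h0 | h0
    · rw [h0, ediam_empty, ENNReal.zero_rpow_of_pos hσ]
      simp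
    · simp [h0]
  refine ⟨c, ρ, fun j => ⟨hρ0 j, max_le (ENNReal.toReal_le_of_le_ofReal hη.le (hdiam j))
    (min_le_left _ _)⟩, ?_, ?_⟩
  · intro x hx
    obtain ⟨j, hj⟩ := mem_iUnion.1 (hcov hx)
    have hne : (t j).Nonempty := ⟨x, hj⟩
    refine mem_iUnion.2 ⟨j, ?_⟩
    have hcj : c j ∈ t j := by
      rw [hc]
      simp only [hne, dif_pos]
      exact hne.some_mem
    rw [mem_closedBall, dist_edist]
    refine le_trans ?_ (le_max_left _ _)
    exact ENNReal.toReal_mono (hfin j) (edist_le_ediam_of_mem hj hcj)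
  · have hterm : ∀ j, ENNReal.ofReal (ρ j ^ σ) ≤ ediam (t j) ^ σ + ε j := by
      intro j
      rcases le_total (min η ((ε j : ℝ) ^ (1 / σ))) (ediam (t j)).toReal with h | h
      · have : ρ j = (ediam (t j)).toReal := max_eq_left h
        rw [this, ← ENNReal.ofReal_rpow_of_nonneg ENNReal.toReal_nonneg hσ.le,
          ENNReal.ofReal_toReal (hfin j)]
        exact le_self_add
      · have : ρ j = min η ((ε j : ℝ) ^ (1 / σ)) := max_eq_right h
        rw [this]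
        refine le_trans ?_ (le_add_self)
        rw [← ENNReal.ofReal_coe_nnreal]
        apply ENNReal.ofReal_le_ofReal
        calc (min η ((ε j : ℝ) ^ (1 / σ))) ^ σ ≤ ((ε j : ℝ) ^ (1 / σ)) ^ σ :=
              Real.rpow_le_rpow (hb0 j).le (min_le_right _ _) hσ.le
          _ = ε j := by
              rw [← Real.rpow_mul (hε' j).le, one_div_mul_cancel hσ.ne', Real.rpow_one]
    calc ∑' j, ENNReal.ofReal (ρ j ^ σ) ≤ ∑' j, (ediam (t j) ^ σ + ε j) :=
          ENNReal.tsum_le_tsum hterm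
      _ = ∑' j, ediam (t j) ^ σ + ∑' j, (ε j : ℝ≥0∞) := ENNReal.tsum_add
      _ ≤ ENNReal.ofReal (η / 2) + ENNReal.ofReal (η / 2) := by
          simp only [hsup] at hsum
          exact add_le_add hsum.le hεsum.le
      _ = ENNReal.ofReal η := by
          rw [← ENNReal.ofReal_add (by positivity) (by positivity)]
          congr 1
          ring

variable {d : ℕ} {F : EuclideanSpace ℝ (Fin (d + 1)) → ℝ} {k : ℕ}
  {z₀ : EuclideanSpace ℝ (Fin (d + 1))} {R A L m : ℝ} {i : Fin (d + 1)}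

/-- The set of directions of flat segments in the leaves numbered by a small set is null. -/
theorem flat (h : Chart F k z₀ R A L m i) (hdk : d < k) {M : ℝ} (hM : 0 ≤ M) {C : Set ℝ}
    (hC : μH[((k:ℝ) - d) / (k + 1)] C = 0) :
    sig (d + 1) {e : sphere (0 : EuclideanSpace ℝ (Fin (d + 1))) 1 | ∃ z ∈ ball z₀ R, F z ∈ C ∧
      ∀ t ∈ Icc (0:ℝ) R, |F (z + t • (e : EuclideanSpace ℝ (Fin (d + 1)))) - F z| ≤
        M * t ^ (k + 1)} = 0 := by
  have hR := h.R0
  have hk1 : (0:ℝ) < k + 1 := by positivity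
  have hkd : (0:ℝ) < (k:ℝ) - d := by
    have : (d:ℝ) < k := by exact_mod_cast hdk
    linarith
  set σ : ℝ := ((k:ℝ) - d) / (k + 1) with hσ
  have hσ0 : 0 < σ := by positivity
  set Q : ℝ := cc d R L m * cp d k A m M with hQ
  have hQ0 : 0 ≤ Q := mul_nonneg (cc_nonneg h) (cp_nonneg h hM)
  set S := {e : sphere (0 : EuclideanSpace ℝ (Fin (d + 1))) 1 | ∃ z ∈ ball z₀ R, F z ∈ C ∧
      ∀ t ∈ Icc (0:ℝ) R, |F (z + t • (e : EuclideanSpace ℝ (Fin (d + 1)))) - F z| ≤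
        M * t ^ (k + 1)} with hS
  have key : ∀ η : ℝ, 0 < η → η ≤ R ^ (k + 1) → sig (d + 1) S ≤ ENNReal.ofReal (Q * η) := by
    intro η hη hηR
    obtain ⟨c, ρ, hρ, hcov, hsum⟩ := cover hσ0 hC hη
    set r : ℕ → ℝ := fun j => (ρ j) ^ (1 / ((k:ℝ) + 1)) with hr
    have hr0 : ∀ j, 0 < r j := fun j => Real.rpow_pos_of_pos (hρ j).1 _
    have hrk : ∀ j, r j ^ (k + 1) = ρ j := by
      intro j
      rw [hr, ← Real.rpow_natCast, ← Real.rpow_mul (hρ j).1.le]
      push_cast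
      rw [one_div_mul_cancel hk1.ne', Real.rpow_one]
    have hrR : ∀ j, r j ≤ R := by
      intro j
      have h1 : r j ^ (k + 1) ≤ R ^ (k + 1) := by
        rw [hrk]; exact (hρ j).2.trans hηR
      exact le_of_pow_le_pow_left₀ (by omega) hR.le h1
    have hrd : ∀ j, r j ^ (k - d) = ρ j ^ σ := by
      intro j
      rw [hr, ← Real.rpow_natCast, ← Real.rpow_mul (hρ j).1.le]
      congr 1
      rw [hσ, Nat.cast_sub hdk.le]
      ring
    have hsub : S ⊆ ⋃ j, {e : sphere (0 : EuclideanSpace ℝ (Fin (d + 1))) 1 |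
        ∃ z ∈ ball z₀ R, |F z - c j| ≤ r j ^ (k + 1) ∧
        ∀ t ∈ Icc (0:ℝ) (r j), |F (z + t • (e : EuclideanSpace ℝ (Fin (d + 1)))) - F z| ≤
          M * r j ^ (k + 1)} := by
      rintro e ⟨z, hz, hzC, hzt⟩
      obtain ⟨j, hj⟩ := mem_iUnion.1 (hcov hzC)
      refine mem_iUnion.2 ⟨j, z, hz, ?_, ?_⟩
      · rw [hrk, ← Real.dist_eq]; exact hj
      · intro t ht
        refine (hzt t ⟨ht.1, ht.2.trans (hrR j)⟩).trans ?_
        have := ht.1
        have := ht.2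
        gcongr
    calc sig (d + 1) S ≤ ∑' j, sig (d + 1) {e : sphere (0 : EuclideanSpace ℝ (Fin (d + 1))) 1 |
          ∃ z ∈ ball z₀ R, |F z - c j| ≤ r j ^ (k + 1) ∧
          ∀ t ∈ Icc (0:ℝ) (r j), |F (z + t • (e : EuclideanSpace ℝ (Fin (d + 1)))) - F z| ≤
            M * r j ^ (k + 1)} := (measure_mono hsub).trans (measure_iUnion_le _)
      _ ≤ ∑' j, ENNReal.ofReal Q * ENNReal.ofReal (ρ j ^ σ) := by
          apply ENNReal.tsum_le_tsum
          intro j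
          rw [← ENNReal.ofReal_mul hQ0, ← hrd]
          exact level h hdk.le (hr0 j) (hrR j) hM _ fun e he => he
      _ = ENNReal.ofReal Q * ∑' j, ENNReal.ofReal (ρ j ^ σ) := ENNReal.tsum_mul_left
      _ ≤ ENNReal.ofReal Q * ENNReal.ofReal η := by gcongr
      _ = ENNReal.ofReal (Q * η) := (ENNReal.ofReal_mul hQ0).symm
  by_contra hne
  have hpos : 0 < sig (d + 1) S := pos_iff_ne_zero.2 hne
  have hlim : Tendsto (fun η : ℝ => ENNReal.ofReal (Q * η)) (𝓝[>] 0) (𝓝 0) := by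
    have h1 : Tendsto (fun η : ℝ => Q * η) (𝓝[>] 0) (𝓝 (Q * 0)) :=
      (continuous_const.mul continuous_id).continuousAt.tendsto.mono_left nhdsWithin_le_nhds
    rw [mul_zero] at h1
    have := ENNReal.tendsto_ofReal h1
    rwa [ENNReal.ofReal_zero] at this
  have hev : ∀ᶠ η : ℝ in 𝓝[>] 0, sig (d + 1) S ≤ ENNReal.ofReal (Q * η) := by
    have h1 : Ioc (0:ℝ) (R ^ (k + 1)) ∈ 𝓝[>] (0:ℝ) := Ioc_mem_nhdsGT (by positivity)
    filter_upwards [h1] with η hη
    exact key η hη.1 hη.2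
  have := ge_of_tendsto hlim hev
  exact absurd this (not_le.2 hpos)

end Pool.Agent.R251.Lam
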