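import Pool.Agent.R251.Lam.Level
import Pool.Agent.W769.Cons.Meas

set_option autoImplicit false

/-! Smooth laminations contain few directions. -/

open MeasureTheory Set Filter Topology ENNReal NNReal Metric

namespace Pool.Agent.R251.Lam

open Pool.Agent.W770.SA

variable {d : ℕ} {F : EuclideanSpace ℝ (Fin (d + 1)) → ℝ} {k : ℕ}
  {U : Set (EuclideanSpace ℝ (Fin (d + 1)))}

/-- Local charts exist. -/
theorem exists_chart (hU : IsOpen U) (hF : ContDiffOn ℝ ((k + 1 : ℕ) : ℕ∞) F U)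
    {x : EuclideanSpace ℝ (Fin (d + 1))} (hx : x ∈ U) (hgrad : fderiv ℝ F x ≠ 0) :
    ∃ (R A L m : ℝ) (i : Fin (d + 1)), Chart F k x R A L m i := by
  have hFy : ∀ y ∈ U, ContDiffAt ℝ (k + 1) F y := fun y hy => by
    have := hF.contDiffAt (hU.mem_nhds hy)
    exact_mod_cast this
  obtain ⟨i, hi⟩ : ∃ i : Fin (d + 1), fderiv ℝ F x (EuclideanSpace.single i (1:ℝ)) ≠ 0 := by
    by_contra hcon
    push Not at hcon
    apply hgrad
    ext v
    have hv : v = ∑ c, v c • EuclideanSpace.single c (1:ℝ) := by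
      ext j
      simp [Finset.sum_apply, Pi.single_apply]
    rw [hv, map_sum]
    simp [hcon]
  set g : ℝ := fderiv ℝ F x (EuclideanSpace.single i (1:ℝ)) with hg
  have hg0 : 0 < |g| := abs_pos.2 hi
  have c1 : ContinuousAt (fderiv ℝ F) x :=
    ((hFy x hx).fderiv_right (m := 0) (by norm_cast; omega)).continuousAt
  have c2 : ContinuousAt (iteratedFDeriv ℝ (k + 1) F) x :=
    (hFy x hx).continuousAt_iteratedFDeriv (by norm_cast)
  have c3 : ContinuousAt (fun y => fderiv ℝ F y (EuclideanSpace.single i (1:ℝ))) x :=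
    c1.clm_apply continuousAt_const
  have e0 : ∀ᶠ y in 𝓝 x, y ∈ U := hU.mem_nhds hx
  have e1 : ∀ᶠ y in 𝓝 x, ‖fderiv ℝ F y‖ < ‖fderiv ℝ F x‖ + 1 :=
    c1.norm.eventually_lt_const (by linarith)
  have e2 : ∀ᶠ y in 𝓝 x, ‖iteratedFDeriv ℝ (k + 1) F y‖ < ‖iteratedFDeriv ℝ (k + 1) F x‖ + 1 :=
    c2.norm.eventually_lt_const (by linarith)
  have e3 : ∀ᶠ y in 𝓝 x, |g| / 2 < |fderiv ℝ F y (EuclideanSpace.single i (1:ℝ))| :=
    c3.abs.eventually_const_lt (by
      show |g| / 2 < |g|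
      linarith)
  obtain ⟨ε, hε, hball⟩ := Metric.eventually_nhds_iff_ball.1 (e0.and (e1.and (e2.and e3)))
  have hsub : ball x (4 * min 1 (ε / 4)) ⊆ ball x ε := by
    apply ball_subset_ball
    linarith [min_le_right 1 (ε / 4)]
  have hR0 : 0 < min 1 (ε / 4) := lt_min one_pos (by positivity)
  have hdiff : ∀ y ∈ ball x (4 * min 1 (ε / 4)), DifferentiableAt ℝ F y := fun y hy =>
    (hFy y (hball y (hsub hy)).1).differentiableAt (by simp)
  refine ⟨min 1 (ε / 4), ‖iteratedFDeriv ℝ (k + 1) F x‖ + 1, ‖fderiv ℝ F x‖ + 1, |g| / 2, i,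
    hR0, min_le_left _ _, by positivity, by positivity, by positivity, ?_, ?_, ?_, ?_⟩
  · exact fun y hy => hFy y (hball y (hsub hy)).1
  · exact fun y hy => (hball y (hsub hy)).2.2.1.le
  · intro y hy z hz
    rw [← Real.norm_eq_abs]
    exact (convex_ball x (4 * min 1 (ε / 4))).norm_image_sub_le_of_norm_fderiv_le hdiff
      (fun w hw => (hball w (hsub hw)).2.1.le) hz hy
  · intro y hy t ht
    obtain ⟨w, hw, hwe⟩ := domain_mvt (f := F) (f' := fun y => fderiv ℝ F y)
      (fun w hw => (hdiff w hw).hasFDerivAt.hasFDerivWithinAt)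
      (convex_ball x (4 * min 1 (ε / 4))) hy ht
    have hwb : w ∈ ball x (4 * min 1 (ε / 4)) := (convex_ball x _).segment_subset hy ht hw
    have h3 := (hball w (hsub hwb)).2.2.2
    rw [hwe, add_sub_cancel_left, map_smul, smul_eq_mul, abs_mul, mul_comm]
    gcongr

/-- On a line which meets a small union of leaves in a set of positive measure there is a point at
which `F` is constant to high order along the line. -/
theorem exists_flat (hU : IsOpen U) (hF : ContDiffOn ℝ ((k + 1 : ℕ) : ℕ∞) F U)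
    {C : Set ℝ} (hC : volume C = 0) (p e : EuclideanSpace ℝ (Fin (d + 1)))
    (hT : volume {t : ℝ | p + t • e ∈ U ∧ F (p + t • e) ∈ C} ≠ 0) :
    ∃ t : ℝ, p + t • e ∈ U ∧ F (p + t • e) ∈ C ∧
      ∀ j ∈ Finset.Icc 1 k, iteratedFDeriv ℝ j F (p + t • e) (fun _ => e) = 0 := by
  have hFy : ∀ y ∈ U, ContDiffAt ℝ (k + 1) F y := fun y hy => by
    have := hF.contDiffAt (hU.mem_nhds hy)
    exact_mod_cast this
  set T := {t : ℝ | p + t • e ∈ U ∧ F (p + t • e) ∈ C} with hTdef
  have hder : ∀ j < k + 1, ∀ t : ℝ, p + t • e ∈ U →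
      HasDerivAt (fun s : ℝ => iteratedFDeriv ℝ j F (p + s • e) (fun _ => e))
        (iteratedFDeriv ℝ (j + 1) F (p + t • e) (fun _ => e)) t := by
    intro j hj t ht
    have h1 : ContDiffAt ℝ (j + 1) F (p + t • e) := (hFy _ ht).of_le (by norm_cast)
    rw [← h1.deriv_fderiv_add_smul]
    have h_diff : DifferentiableAt ℝ (iteratedFDeriv ℝ j F) (p + t • e) := by
      apply h1.differentiableAt_iteratedFDeriv
      norm_cast
      omega
    refine DifferentiableAt.hasDerivAt ?_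
    fun_prop
  have hnull : ∀ (j : ℕ) (N : Set ℝ), j < k + 1 → volume N = 0 →
      volume {t : ℝ | p + t • e ∈ U ∧ iteratedFDeriv ℝ j F (p + t • e) (fun _ => e) ∈ N ∧
        iteratedFDeriv ℝ (j + 1) F (p + t • e) (fun _ => e) ≠ 0} = 0 := by
    intro j N hj hN
    refine Pool.Agent.W769.Cons.null_of_null_image volume
      (f := fun s : ℝ => iteratedFDeriv ℝ j F (p + s • e) (fun _ => e))
      (f' := fun t => ContinuousLinearMap.toSpanSingleton ℝ
        (iteratedFDeriv ℝ (j + 1) F (p + t • e) (fun _ => e))) ?_ ?_ ?_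
    · intro t ht
      exact (hder j hj t ht.1).hasFDerivAt.hasFDerivWithinAt
    · refine measure_mono_null ?_ hN
      rintro _ ⟨t, ht, rfl⟩
      exact ht.2.1
    · intro t ht
      rw [ContinuousLinearMap.det_toSpanSingleton]
      exact ht.2.2
  by_contra hcon
  push Not at hcon
  apply hT
  have hsub : T ⊆ ⋃ j ∈ Finset.range (k + 1), {t : ℝ | p + t • e ∈ U ∧
      iteratedFDeriv ℝ j F (p + t • e) (fun _ => e) ∈ (if j = 0 then C else {0}) ∧
      iteratedFDeriv ℝ (j + 1) F (p + t • e) (fun _ => e) ≠ 0} := by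
    intro t ht
    have h1 : ∃ j, j ∈ Finset.Icc 1 k ∧ iteratedFDeriv ℝ j F (p + t • e) (fun _ => e) ≠ 0 :=
      hcon t ht.1 ht.2
    classical
    set j := Nat.find h1 with hj
    obtain ⟨h2, h3⟩ := Nat.find_spec h1
    rw [← hj] at h2 h3
    rw [Finset.mem_Icc] at h2
    have h4 : ∀ l < j, ¬ (l ∈ Finset.Icc 1 k ∧ iteratedFDeriv ℝ l F (p + t • e) (fun _ => e) ≠ 0) :=
      fun l hl => Nat.find_min h1 hl
    obtain ⟨l, hl⟩ : ∃ l, j = l + 1 := ⟨j - 1, by omega⟩
    rw [mem_iUnion₂]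
    refine ⟨l, by rw [Finset.mem_range]; omega, ht.1, ?_, by rw [← hl]; exact h3⟩
    rcases Nat.eq_zero_or_pos l with h0 | h0
    · subst h0
      simp only [if_true]
      rw [iteratedFDeriv_zero_apply]
      exact ht.2
    · rw [if_neg (by omega)]
      have h5 := h4 l (by omega)
      rw [not_and_or, not_not] at h5
      rcases h5 with h5 | h5
      · exfalso
        apply h5
        rw [Finset.mem_Icc]
        omega
      · exact h5
  refine measure_mono_null hsub ?_
  refine (measure_biUnion_null_iff (Finset.range (k + 1)).countable_toSet).2 ?_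
  intro j hj
  have hj' : j < k + 1 := Finset.mem_range.1 hj
  apply hnull j _ hj'
  split_ifs
  · exact hC
  · simp

theorem null_dirs (hU : IsOpen U) (hF : ContDiffOn ℝ ((k + 1 : ℕ) : ℕ∞) F U)
    (hgrad : ∀ x ∈ U, fderiv ℝ F x ≠ 0) (hdk : d < k) {C : Set ℝ}
    (hC : μH[((k:ℝ) - d) / (k + 1)] C = 0) :
    sig (d + 1) {e : sphere (0 : EuclideanSpace ℝ (Fin (d + 1))) 1 |
      ∃ p : EuclideanSpace ℝ (Fin (d + 1)), volume {t : ℝ |
        p + t • (e : EuclideanSpace ℝ (Fin (d + 1))) ∈ U ∧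
        F (p + t • (e : EuclideanSpace ℝ (Fin (d + 1)))) ∈ C} ≠ 0} = 0 := by
  have hk1 : (0:ℝ) < k + 1 := by positivity
  have hC0 : volume C = 0 := by
    rw [← hausdorffMeasure_real]
    refine le_antisymm ((Measure.hausdorffMeasure_mono (d₁ := ((k:ℝ) - d) / (k + 1)) (d₂ := 1) ?_ C).trans
      hC.le) zero_le
    rw [div_le_one hk1]
    have : (0:ℝ) ≤ d := Nat.cast_nonneg d
    linarith
  choose! R A L m i hch using fun (x : EuclideanSpace ℝ (Fin (d + 1))) (hx : x ∈ U) =>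
    exists_chart hU hF hx (hgrad x hx)
  obtain ⟨s, hsU, hsc, hcov⟩ := TopologicalSpace.countable_cover_nhdsWithin
    (f := fun x => ball x (R x)) (s := U)
    (fun x hx => mem_nhdsWithin_of_mem_nhds (ball_mem_nhds x (hch x hx).R0))
  have hnull : ∀ x ∈ s, sig (d + 1) {e : sphere (0 : EuclideanSpace ℝ (Fin (d + 1))) 1 |
      ∃ z ∈ ball x (R x), F z ∈ C ∧
      ∀ t ∈ Icc (0:ℝ) (R x), |F (z + t • (e : EuclideanSpace ℝ (Fin (d + 1)))) - F z| ≤
        A x * t ^ (k + 1)} = 0 := fun x hx =>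
    flat (hch x (hsU hx)) hdk (hch x (hsU hx)).A0 hC
  refine measure_mono_null ?_ ((measure_biUnion_null_iff hsc).2 hnull)
  rintro e ⟨p, hp⟩
  obtain ⟨t₀, ht1, ht2, ht3⟩ := exists_flat hU hF hC0 p e hp
  set z := p + t₀ • (e : EuclideanSpace ℝ (Fin (d + 1))) with hz
  obtain ⟨x, hxs, hzx⟩ := mem_iUnion₂.1 (hcov ht1)
  rw [mem_iUnion₂]
  refine ⟨x, hxs, z, hzx, ht2, ?_⟩
  intro t ht
  have hcx := hch x (hsU hxs)
  have he1 : ‖(e : EuclideanSpace ℝ (Fin (d + 1)))‖ = 1 := by simp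
  have hR := hcx.R0
  have hzb : z ∈ ball x (4 * R x) := by
    rw [mem_ball] at hzx ⊢
    linarith
  have hvb : z + t • (e : EuclideanSpace ℝ (Fin (d + 1))) ∈ ball x (4 * R x) := by
    have h2 : dist (z + t • (e : EuclideanSpace ℝ (Fin (d + 1)))) z ≤ R x := by
      rw [dist_eq_norm, add_sub_cancel_left, norm_smul, he1, mul_one, Real.norm_of_nonneg ht.1]
      exact ht.2
    rw [mem_ball] at hzx ⊢
    linarith [dist_triangle (z + t • (e : EuclideanSpace ℝ (Fin (d + 1)))) z x]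
  have h := taylor (convex_ball x (4 * R x)) hcx.smooth hcx.bound hvb hzb
  rw [add_sub_cancel_left, norm_smul, he1, mul_one, Real.norm_of_nonneg ht.1, tp_eval,
    add_sub_cancel_left] at h
  have hval : ∑ j ∈ Finset.range (k + 1), (j.factorial : ℝ)⁻¹ •
      iteratedFDeriv ℝ j F z (fun _ => t • (e : EuclideanSpace ℝ (Fin (d + 1)))) = F z := by
    rw [Finset.sum_eq_single 0]
    · simp
    · intro j hj hj0
      have h3 := ht3 j (by
        rw [Finset.mem_Icc]
        have := Finset.mem_range.1 hj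
        omega)
      have h4 : iteratedFDeriv ℝ j F z (fun _ => t • (e : EuclideanSpace ℝ (Fin (d + 1)))) =
          t ^ j • iteratedFDeriv ℝ j F z (fun _ => (e : EuclideanSpace ℝ (Fin (d + 1)))) := by
        have := (iteratedFDeriv ℝ j F z).map_smul_univ (fun _ => t)
          (fun _ => (e : EuclideanSpace ℝ (Fin (d + 1))))
        rw [this]
        simp
      rw [h4, h3, smul_zero, smul_zero]
    · intro h0
      exact absurd (Finset.mem_range.2 (by omega)) h0
  rw [hval] at h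
  exact h

end Pool.Agent.R251.Lam
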