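import Pool.Agent.R251.Lam.Tay
import Pool.Agent.R251.Lam.Fib
import Pool.Agent.W770.SA.Covers2

set_option autoImplicit false

/-! Directions of segments on which a smooth function is nearly constant: one ball. -/

open MeasureTheory Set Filter Topology ENNReal NNReal Metric

namespace Pool.Agent.R251.Lam

open Pool.Agent.W770.SA

variable {d : ℕ}

/-- Quantitative local hypotheses. -/
structure Chart (F : EuclideanSpace ℝ (Fin (d + 1)) → ℝ) (k : ℕ)
    (z₀ : EuclideanSpace ℝ (Fin (d + 1))) (R A L m : ℝ) (i : Fin (d + 1)) : Prop where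
  R0 : 0 < R
  R1 : R ≤ 1
  m0 : 0 < m
  A0 : 0 ≤ A
  L0 : 0 ≤ L
  smooth : ∀ x ∈ ball z₀ (4 * R), ContDiffAt ℝ (k + 1) F x
  bound : ∀ x ∈ ball z₀ (4 * R), ‖iteratedFDeriv ℝ (k + 1) F x‖ ≤ A
  lip : ∀ x ∈ ball z₀ (4 * R), ∀ y ∈ ball z₀ (4 * R), |F x - F y| ≤ L * ‖x - y‖
  anti : ∀ x ∈ ball z₀ (4 * R), ∀ t : ℝ, x + t • EuclideanSpace.single i (1:ℝ) ∈ ball z₀ (4 * R) →
    m * |t| ≤ |F (x + t • EuclideanSpace.single i (1:ℝ)) - F x|

variable {F : EuclideanSpace ℝ (Fin (d + 1)) → ℝ} {k : ℕ}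
  {z₀ : EuclideanSpace ℝ (Fin (d + 1))} {R A L m : ℝ} {i : Fin (d + 1)}

/-- The volume of the unit ball. -/
noncomputable def omg (d : ℕ) : ℝ :=
  (volume (ball (0 : EuclideanSpace ℝ (Fin (d + 1))) 1)).toReal

theorem omg_pos : 0 < omg d :=
  ENNReal.toReal_pos (measure_ball_pos _ _ one_pos).ne' measure_ball_lt_top.ne

theorem vol_ball (x : EuclideanSpace ℝ (Fin (d + 1))) {r : ℝ} (hr : 0 < r) :
    volume (ball x r) = ENNReal.ofReal (r ^ (d + 1) * omg d) := by
  rw [Measure.addHaar_ball_of_pos _ _ hr, finrank_euclideanSpace_fin, omg,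
    ENNReal.ofReal_mul (by positivity), ENNReal.ofReal_toReal measure_ball_lt_top.ne]

/-- Counting constant. -/
noncomputable def cc (d : ℕ) (R L m : ℝ) : ℝ :=
  2 ^ (d + 1) * (2 * ((2 + L) / m)) * (2 * (2 * R)) ^ d / omg d

/-- Separated points near a level set. -/
theorem count (h : Chart F k z₀ R A L m i) {c r ρ : ℝ} (hr : 0 < r) (hrR : r ≤ R) (hρr : ρ ≤ r)
    (s : Finset (EuclideanSpace ℝ (Fin (d + 1)))) (hs : ∀ x ∈ s, x ∈ ball z₀ R ∧ |F x - c| ≤ ρ)
    (hsep : ∀ x ∈ s, ∀ y ∈ s, x ≠ y → r ≤ dist x y) :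
    (s.card : ℝ) * r ^ d ≤ cc d R L m := by
  classical
  have hm := h.m0
  have hR := h.R0
  set B : Set (EuclideanSpace ℝ (Fin (d + 1))) := ⋃ x ∈ s, ball x (r / 2) with hB
  have hBm : MeasurableSet B := by
    rw [hB]
    exact Finset.measurableSet_biUnion _ fun _ _ => measurableSet_ball
  have hBsub : B ⊆ closedBall z₀ (2 * R) := by
    intro x hx
    rw [hB, mem_iUnion₂] at hx
    obtain ⟨y, hy, hxy⟩ := hx
    have h1 := (hs y hy).1
    rw [mem_ball] at hxy h1
    rw [mem_closedBall]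
    linarith [dist_triangle x y z₀]
  have hBin : ∀ x ∈ B, x ∈ ball z₀ (4 * R) := by
    intro x hx
    have := hBsub hx
    rw [mem_closedBall] at this
    rw [mem_ball]
    linarith
  have hBF : ∀ x ∈ B, |F x - c| ≤ ρ + L * (r / 2) := by
    intro x hx
    have hx' := hx
    rw [hB, mem_iUnion₂] at hx
    obtain ⟨y, hy, hxy⟩ := hx
    have h1 := (hs y hy).1
    have h2 : y ∈ ball z₀ (4 * R) := by
      rw [mem_ball] at h1 ⊢
      linarith
    have h3 := h.lip x (hBin x hx') y h2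
    have h4 : ‖x - y‖ ≤ r / 2 := by
      rw [mem_ball, dist_eq_norm] at hxy; exact hxy.le
    have h5 : L * ‖x - y‖ ≤ L * (r / 2) := mul_le_mul_of_nonneg_left h4 h.L0
    have h6 : |F x - c| ≤ |F x - F y| + |F y - c| := abs_sub_le _ _ _
    linarith [(hs y hy).2]
  have hfib := fib hBm hBsub i (ℓ := (2 + L) * r / m) (by
    intro x hx t ht
    have h1 := h.anti x (hBin x hx) t (hBin _ ht)
    have h2 := hBF x hx
    have h3 := hBF _ ht
    rw [le_div_iff₀ hm]
    have h4 : |F (x + t • EuclideanSpace.single i (1:ℝ)) - F x| ≤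
        |F (x + t • EuclideanSpace.single i (1:ℝ)) - c| + |F x - c| := by
      have := abs_sub (F (x + t • EuclideanSpace.single i (1:ℝ)) - c) (F x - c)
      simpa using this
    nlinarith)
  have hvol : volume B = ENNReal.ofReal (s.card * ((r / 2) ^ (d + 1) * omg d)) := by
    rw [hB, measure_biUnion_finset]
    · rw [Finset.sum_congr rfl fun x _ => vol_ball x (by positivity : 0 < r / 2),
        Finset.sum_const, nsmul_eq_mul, ← ENNReal.ofReal_natCast, ← ENNReal.ofReal_mul (by positivity)]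
    · intro x hx y hy hxy
      apply ball_disjoint_ball
      linarith [hsep x hx y hy hxy]
    · exact fun _ _ => measurableSet_ball
  rw [hvol, ← ENNReal.ofReal_pow (by positivity), ← ENNReal.ofReal_mul (by
    have := h.L0
    positivity), ENNReal.ofReal_le_ofReal_iff (by
    have := h.L0
    positivity)] at hfib
  have hω := omg_pos (d := d)
  rw [cc, le_div_iff₀ hω]
  have e1 : (s.card : ℝ) * ((r / 2) ^ (d + 1) * omg d) * 2 ^ (d + 1) =
      (s.card * r ^ d * omg d) * r := by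
    rw [div_pow]
    field_simp
    ring
  have e2 : (s.card * r ^ d * omg d) * r ≤
      (2 ^ (d + 1) * (2 * ((2 + L) / m)) * (2 * (2 * R)) ^ d) * r := by
    rw [← e1]
    calc _ ≤ 2 * ((2 + L) * r / m) * (2 * (2 * R)) ^ d * 2 ^ (d + 1) := by gcongr
      _ = _ := by ring
  exact le_of_mul_le_mul_right e2 hr

/-- The piece. -/
def pc (F : EuclideanSpace ℝ (Fin (d + 1)) → ℝ) (k : ℕ) (x : EuclideanSpace ℝ (Fin (d + 1)))
    (c r η : ℝ) : Set (EuclideanSpace ℝ (Fin (d + 1))) :=
  {y | ‖y - x‖ < 2 * r ∧ |evl (tp F k x) y - c| < η}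

theorem pc_basic (x : EuclideanSpace ℝ (Fin (d + 1))) {c r η : ℝ} (hr : 0 < r) :
    BasicOpen (2 + 2 * k) (pc F k x c r η) := by
  refine ⟨3, ![MvPolynomial.C ((2 * r) ^ 2) - ∑ l, (MvPolynomial.X l - MvPolynomial.C (x l)) ^ 2,
    MvPolynomial.C (η + c) - tp F k x, MvPolynomial.C (η - c) + tp F k x], ?_, ?_⟩
  · have h0 : (MvPolynomial.C ((2 * r) ^ 2) - ∑ l, (MvPolynomial.X l - MvPolynomial.C (x l)) ^ 2 :
        MvPolynomial (Fin (d + 1)) ℝ).totalDegree ≤ 2 := by
      refine (MvPolynomial.totalDegree_sub _ _).trans (max_le ?_ ?_)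
      · rw [MvPolynomial.totalDegree_C]; norm_num
      · apply MvPolynomial.totalDegree_finsetSum_le
        intro l _
        refine (MvPolynomial.totalDegree_pow _ _).trans ?_
        have : (MvPolynomial.X l - MvPolynomial.C (x l) :
            MvPolynomial (Fin (d + 1)) ℝ).totalDegree ≤ 1 := by
          refine (MvPolynomial.totalDegree_sub _ _).trans ?_
          rw [MvPolynomial.totalDegree_X, MvPolynomial.totalDegree_C]
          simp
        omega
    have h1 : (MvPolynomial.C (η + c) - tp F k x : MvPolynomial (Fin (d + 1)) ℝ).totalDegree ≤ k := by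
      refine (MvPolynomial.totalDegree_sub _ _).trans (max_le ?_ (tp_deg _ _ _))
      rw [MvPolynomial.totalDegree_C]; omega
    have h2 : (MvPolynomial.C (η - c) + tp F k x : MvPolynomial (Fin (d + 1)) ℝ).totalDegree ≤ k := by
      refine (MvPolynomial.totalDegree_add _ _).trans (max_le ?_ (tp_deg _ _ _))
      rw [MvPolynomial.totalDegree_C]; omega
    rw [Fin.sum_univ_three]
    simp only [Matrix.cons_val_zero, Matrix.cons_val_one, Matrix.cons_val]
    omega
  · ext y
    have e0 : MvPolynomial.eval (fun l => y l) (MvPolynomial.C ((2 * r) ^ 2) -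
        ∑ l, (MvPolynomial.X l - MvPolynomial.C (x l)) ^ 2) = (2 * r) ^ 2 - ‖y - x‖ ^ 2 := by
      rw [EuclideanSpace.norm_sq_eq]
      simp [map_sum]
    have e1 : MvPolynomial.eval (fun l => y l) (MvPolynomial.C (η + c) - tp F k x) =
        η + c - evl (tp F k x) y := by simp [evl]
    have e2 : MvPolynomial.eval (fun l => y l) (MvPolynomial.C (η - c) + tp F k x) =
        η - c + evl (tp F k x) y := by simp [evl]
    constructor
    · rintro ⟨h1, h2⟩
      rw [abs_lt] at h2
      intro j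
      fin_cases j
      · show 0 < MvPolynomial.eval (fun l => y l) (MvPolynomial.C ((2 * r) ^ 2) -
          ∑ l, (MvPolynomial.X l - MvPolynomial.C (x l)) ^ 2)
        rw [e0]
        have := norm_nonneg (y - x)
        nlinarith
      · show 0 < MvPolynomial.eval (fun l => y l) (MvPolynomial.C (η + c) - tp F k x)
        rw [e1]; linarith [h2.2]
      · show 0 < MvPolynomial.eval (fun l => y l) (MvPolynomial.C (η - c) + tp F k x)
        rw [e2]; linarith [h2.1]
    · intro h
      have h0 := h 0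
      have h1 := h 1
      have h2 := h 2
      simp only [Matrix.cons_val_zero, Matrix.cons_val_one, Matrix.cons_val] at h0 h1 h2
      rw [e0] at h0
      rw [e1] at h1
      rw [e2] at h2
      refine ⟨?_, ?_⟩
      · by_contra hcon
        push Not at hcon
        nlinarith
      · rw [abs_lt]
        constructor <;> linarith

theorem basic_complexity {n D : ℕ} {S : Set (EuclideanSpace ℝ (Fin n))} (hD : 1 ≤ D)
    (h : BasicOpen D S) : ComplexityLE D S := by
  refine ⟨fun _ => S, fun _ => h, ?_⟩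
  have : Nonempty (Fin D) := ⟨⟨0, hD⟩⟩
  exact (iUnion_const S).symm

/-- Piece constant. -/
noncomputable def cp (d k : ℕ) (A m M : ℝ) : ℝ :=
  cst1 (d + 1) * ((2 + 2 * k : ℕ) : ℝ) ^ (exp1 (d + 1)) *
    (2 * (2 * (M + 2 + 2 * (A * 2 ^ (k + 1))) / m) * 4 ^ d)

/-- Directions in a piece. -/
theorem piece (h : Chart F k z₀ R A L m i) {c r : ℝ} (hr : 0 < r) (hrR : r ≤ R) {M : ℝ}
    (hM : 0 ≤ M) {x : EuclideanSpace ℝ (Fin (d + 1))} (hx : x ∈ ball z₀ R)
    (S : Set (sphere (0 : EuclideanSpace ℝ (Fin (d + 1))) 1))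
    (hS : ∀ e ∈ S, ∃ z ∈ ball x r, |F z - c| ≤ r ^ (k + 1) ∧
      ∀ t ∈ Icc (0:ℝ) r, |F (z + t • (e : EuclideanSpace ℝ (Fin (d + 1)))) - F z| ≤
        M * r ^ (k + 1)) :
    sig (d + 1) S ≤ ENNReal.ofReal (cp d k A m M * r ^ k) := by
  have hm := h.m0
  have hR := h.R0
  have hA := h.A0
  have hr1 : r ≤ 1 := hrR.trans h.R1
  set η : ℝ := (M + 2 + A * 2 ^ (k + 1)) * r ^ (k + 1) with hη
  have hρ : 0 < r ^ (k + 1) := by positivity
  have hball : ∀ y, ‖y - x‖ < 2 * r → y ∈ ball z₀ (4 * R) := by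
    intro y hy
    rw [mem_ball] at hx ⊢
    rw [← dist_eq_norm] at hy
    linarith [dist_triangle y x z₀]
  have hxb : x ∈ ball z₀ (4 * R) := hball x (by simp [hr])
  have htay : ∀ y, ‖y - x‖ < 2 * r → |F y - evl (tp F k x) y| ≤ A * 2 ^ (k + 1) * r ^ (k + 1) := by
    intro y hy
    have h1 := taylor (convex_ball z₀ (4 * R)) h.smooth h.bound (hball y hy) hxb
    refine h1.trans ?_
    rw [mul_assoc, ← mul_pow]
    gcongr
  set P := pc F k x c r η with hP
  have hPb : BasicOpen (2 + 2 * k) P := pc_basic x hr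
  have hseg : ∀ e ∈ S, ∃ z : EuclideanSpace ℝ (Fin (d + 1)), ENNReal.ofReal r ≤
      volume {s : ℝ | s ∈ Icc (0:ℝ) 1 ∧ z + s • (e : EuclideanSpace ℝ (Fin (d + 1))) ∈ P} := by
    intro e he
    obtain ⟨z, hz, hzc, hzt⟩ := hS e he
    refine ⟨z, ?_⟩
    have hsub : Icc (0:ℝ) r ⊆
        {s : ℝ | s ∈ Icc (0:ℝ) 1 ∧ z + s • (e : EuclideanSpace ℝ (Fin (d + 1))) ∈ P} := by
      intro t ht
      refine ⟨⟨ht.1, ht.2.trans hr1⟩, ?_⟩
      have hn : ‖z + t • (e : EuclideanSpace ℝ (Fin (d + 1))) - x‖ < 2 * r := by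
        have e1 : z + t • (e : EuclideanSpace ℝ (Fin (d + 1))) - x =
            (z - x) + t • (e : EuclideanSpace ℝ (Fin (d + 1))) := by abel
        rw [e1]
        have he1 : ‖(e : EuclideanSpace ℝ (Fin (d + 1)))‖ = 1 := by simpa using e.2
        have h2 : ‖t • (e : EuclideanSpace ℝ (Fin (d + 1)))‖ ≤ r := by
          rw [norm_smul, he1, mul_one, Real.norm_of_nonneg ht.1]; exact ht.2
        rw [mem_ball, dist_eq_norm] at hz
        linarith [norm_add_le (z - x) (t • (e : EuclideanSpace ℝ (Fin (d + 1))))]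
      refine ⟨hn, ?_⟩
      have h1 := htay _ hn
      have h2 := hzt t ht
      have h3 : |evl (tp F k x) (z + t • (e : EuclideanSpace ℝ (Fin (d + 1)))) - c| ≤
          |F (z + t • (e : EuclideanSpace ℝ (Fin (d + 1)))) -
            evl (tp F k x) (z + t • (e : EuclideanSpace ℝ (Fin (d + 1))))| +
          |F (z + t • (e : EuclideanSpace ℝ (Fin (d + 1)))) - F z| + |F z - c| := by
        rw [abs_sub_comm (F (z + t • (e : EuclideanSpace ℝ (Fin (d + 1)))))
          (evl (tp F k x) (z + t • (e : EuclideanSpace ℝ (Fin (d + 1)))))]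
        refine (abs_sub_le _ (F (z + t • (e : EuclideanSpace ℝ (Fin (d + 1))))) _).trans ?_
        rw [add_assoc]
        gcongr
        exact abs_sub_le _ _ _
      rw [hη]
      nlinarith
    calc ENNReal.ofReal r = volume (Icc (0:ℝ) r) := by rw [Real.volume_Icc, sub_zero]
      _ ≤ _ := measure_mono hsub
  have h1 := one_set (n := d + 1) (by omega) hr hseg (D := 2 + 2 * k) (by omega)
    (basic_complexity (by omega) hPb) subset_rfl
  have hvol := fib (A := P) hPb.isOpen.measurableSet (x₀ := x) (R := 2 * r) (by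
      intro y hy
      rw [mem_closedBall, dist_eq_norm]
      exact hy.1.le) i (ℓ := 2 * (M + 2 + 2 * (A * 2 ^ (k + 1))) * r ^ (k + 1) / m) (by
    intro y hy t ht
    rw [le_div_iff₀ hm]
    have h1 := h.anti y (hball y hy.1) t (hball _ ht.1)
    have h2 := htay _ hy.1
    have h3 := htay _ ht.1
    have h4 := hy.2
    have h5 := ht.2
    have h6 : |F y - c| ≤ |F y - evl (tp F k x) y| + |evl (tp F k x) y - c| := abs_sub_le _ _ _
    have h7 : |F (y + t • EuclideanSpace.single i (1:ℝ)) - c| ≤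
      |F (y + t • EuclideanSpace.single i (1:ℝ)) -
        evl (tp F k x) (y + t • EuclideanSpace.single i (1:ℝ))| +
      |evl (tp F k x) (y + t • EuclideanSpace.single i (1:ℝ)) - c| := abs_sub_le _ _ _
    have h8 : |F (y + t • EuclideanSpace.single i (1:ℝ)) - F y| ≤
        |F (y + t • EuclideanSpace.single i (1:ℝ)) - c| + |F y - c| := by
      have := abs_sub (F (y + t • EuclideanSpace.single i (1:ℝ)) - c) (F y - c)
      simpa using this
    rw [hη] at h4 h5
    nlinarith)
  have hc := cst1_pos (n := d + 1) (by omega)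
  set Q : ℝ := cst1 (d + 1) * ((2 + 2 * k : ℕ) : ℝ) ^ (exp1 (d + 1)) with hQ
  have hQ0 : 0 < Q := by
    rw [hQ]
    have : (0:ℝ) < ((2 + 2 * k : ℕ) : ℝ) := by positivity
    positivity
  have h2 : ENNReal.ofReal (r ^ (d + 1)) * sig (d + 1) S ≤
      ENNReal.ofReal (r ^ (d + 1) * (cp d k A m M * r ^ k)) := by
    refine h1.trans ?_
    calc ENNReal.ofReal Q * volume P
        ≤ ENNReal.ofReal Q * (ENNReal.ofReal (2 * (2 * (M + 2 + 2 * (A * 2 ^ (k + 1))) *
            r ^ (k + 1) / m)) * ENNReal.ofReal (2 * (2 * r)) ^ d) := by gcongr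
      _ = ENNReal.ofReal (Q * (2 * (2 * (M + 2 + 2 * (A * 2 ^ (k + 1))) * r ^ (k + 1) / m) *
            (2 * (2 * r)) ^ d)) := by
          rw [← ENNReal.ofReal_pow (by positivity), ← ENNReal.ofReal_mul (by positivity),
            ← ENNReal.ofReal_mul (by positivity)]
      _ = _ := by
          congr 1
          rw [cp, ← hQ, show 2 * (2 * r) = 4 * r by ring, mul_pow]
          ring
  rw [ENNReal.ofReal_mul (by positivity)] at h2
  exact (ENNReal.mul_le_mul_iff_right (by
    rw [ne_eq, ENNReal.ofReal_eq_zero, not_le]; positivity) ENNReal.ofReal_ne_top).1 h2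

end Pool.Agent.R251.Lam
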