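import Pool.Agent.W770.SA.Basic

set_option autoImplicit false

/-! Taylor polynomials of real functions on `ℝ^n`, as polynomials in `n` variables. -/

open MeasureTheory Set Filter Topology ENNReal NNReal Metric

namespace Pool.Agent.R251.Lam

open Pool.Agent.W770.SA

variable {n : ℕ}

/-- `v ↦ f (v - w, …, v - w)` as a polynomial. -/
noncomputable def mp {j : ℕ}
    (f : ContinuousMultilinearMap ℝ (fun _ : Fin j => EuclideanSpace ℝ (Fin n)) ℝ)
    (w : EuclideanSpace ℝ (Fin n)) : MvPolynomial (Fin n) ℝ :=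
  ∑ r : Fin j → Fin n, MvPolynomial.C (f (fun i => EuclideanSpace.single (r i) (1:ℝ))) *
    ∏ i, (MvPolynomial.X (r i) - MvPolynomial.C (w (r i)))

theorem mp_eval {j : ℕ}
    (f : ContinuousMultilinearMap ℝ (fun _ : Fin j => EuclideanSpace ℝ (Fin n)) ℝ)
    (w v : EuclideanSpace ℝ (Fin n)) :
    evl (mp f w) v = f (fun _ => v - w) := by
  classical
  have hu : v - w = ∑ c, (v c - w c) • EuclideanSpace.single c (1:ℝ) := by
    ext i
    simp [Finset.sum_apply, Pi.single_apply]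
  have h1 : f (fun _ => v - w) = ∑ r : Fin j → Fin n, (∏ i, (v (r i) - w (r i))) •
      f (fun i => EuclideanSpace.single (r i) (1:ℝ)) := by
    rw [hu, ContinuousMultilinearMap.map_sum]
    refine Finset.sum_congr rfl fun r _ => ?_
    exact f.map_smul_univ (fun i => v (r i) - w (r i)) (fun i => EuclideanSpace.single (r i) (1:ℝ))
  rw [h1, mp, evl]
  simp [map_sum, map_mul, map_prod, mul_comm]

theorem mp_deg {j : ℕ}
    (f : ContinuousMultilinearMap ℝ (fun _ : Fin j => EuclideanSpace ℝ (Fin n)) ℝ)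
    (w : EuclideanSpace ℝ (Fin n)) : (mp f w).totalDegree ≤ j := by
  apply MvPolynomial.totalDegree_finsetSum_le
  intro r _
  refine (MvPolynomial.totalDegree_mul _ _).trans ?_
  rw [MvPolynomial.totalDegree_C, zero_add]
  refine (MvPolynomial.totalDegree_finsetProd _ _).trans ?_
  calc ∑ i : Fin j, (MvPolynomial.X (r i) - MvPolynomial.C (w (r i)) :
        MvPolynomial (Fin n) ℝ).totalDegree
      ≤ ∑ _i : Fin j, 1 := by
        refine Finset.sum_le_sum fun i _ => ?_
        refine (MvPolynomial.totalDegree_sub _ _).trans ?_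
        rw [MvPolynomial.totalDegree_X, MvPolynomial.totalDegree_C]
        simp
    _ = j := by simp

/-- The Taylor polynomial of order `k` of `F` at `w`. -/
noncomputable def tp (F : EuclideanSpace ℝ (Fin n) → ℝ) (k : ℕ) (w : EuclideanSpace ℝ (Fin n)) :
    MvPolynomial (Fin n) ℝ :=
  ∑ j ∈ Finset.range (k + 1), MvPolynomial.C ((j.factorial : ℝ)⁻¹) * mp (iteratedFDeriv ℝ j F w) w

theorem tp_deg (F : EuclideanSpace ℝ (Fin n) → ℝ) (k : ℕ) (w : EuclideanSpace ℝ (Fin n)) :
    (tp F k w).totalDegree ≤ k := by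
  apply MvPolynomial.totalDegree_finsetSum_le
  intro j hj
  refine (MvPolynomial.totalDegree_mul _ _).trans ?_
  rw [MvPolynomial.totalDegree_C, zero_add]
  exact (mp_deg _ _).trans (Nat.lt_succ_iff.1 (Finset.mem_range.1 hj))

theorem tp_eval (F : EuclideanSpace ℝ (Fin n) → ℝ) (k : ℕ) (w v : EuclideanSpace ℝ (Fin n)) :
    evl (tp F k w) v =
      ∑ j ∈ Finset.range (k + 1), (j.factorial : ℝ)⁻¹ • iteratedFDeriv ℝ j F w (fun _ => v - w) := by
  have h : ∀ (j : ℕ), MvPolynomial.eval (fun l => v l)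
      (MvPolynomial.C ((j.factorial : ℝ)⁻¹) * mp (iteratedFDeriv ℝ j F w) w) =
      (j.factorial : ℝ)⁻¹ • iteratedFDeriv ℝ j F w (fun _ => v - w) := by
    intro j
    have := mp_eval (iteratedFDeriv ℝ j F w) w v
    unfold evl at this
    rw [map_mul, MvPolynomial.eval_C, this, smul_eq_mul]
  unfold evl tp
  rw [map_sum]
  exact Finset.sum_congr rfl fun j _ => h j

/-- Taylor's formula with the derivatives of order `k + 1` bounded on a convex set. -/
theorem taylor {F : EuclideanSpace ℝ (Fin n) → ℝ} {k : ℕ} {B : Set (EuclideanSpace ℝ (Fin n))}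
    (hB : Convex ℝ B) (hF : ∀ x ∈ B, ContDiffAt ℝ (k + 1) F x) {A : ℝ}
    (hA : ∀ x ∈ B, ‖iteratedFDeriv ℝ (k + 1) F x‖ ≤ A) {v w : EuclideanSpace ℝ (Fin n)}
    (hv : v ∈ B) (hw : w ∈ B) : |F v - evl (tp F k w) v| ≤ A * ‖v - w‖ ^ (k + 1) := by
  have hseg : ∀ t ∈ Icc (0:ℝ) 1, w + t • (v - w) ∈ B := by
    intro t ht
    have := hB hw hv (a := 1 - t) (b := t) (by linarith [ht.2]) ht.1 (by ring)
    convert this using 1
    rw [smul_sub, sub_smul, one_smul]; abel
  have h := map_add_eq_sum_add_integral_iteratedFDeriv (f := F) (x := w) (y := v - w) (n := k)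
    (fun t ht => hF _ (hseg t ht))
  rw [add_sub_cancel] at h
  rw [tp_eval, h, add_sub_cancel_left, smul_eq_mul, abs_mul, abs_inv, Nat.abs_cast,
    ← Real.norm_eq_abs]
  have hA0 : 0 ≤ A := (norm_nonneg _).trans (hA v hv)
  have hint : ‖∫ t in (0:ℝ)..1, (1 - t) ^ k • iteratedFDeriv ℝ (k + 1) F (w + t • (v - w))
      (fun _ => v - w)‖ ≤ (A * ‖v - w‖ ^ (k + 1)) * |(1:ℝ) - 0| := by
    apply intervalIntegral.norm_integral_le_of_norm_le_const
    intro t ht
    rw [uIoc_of_le zero_le_one] at ht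
    have hin := hseg t ⟨ht.1.le, ht.2⟩
    rw [norm_smul, norm_pow, Real.norm_of_nonneg (by linarith [ht.2] : (0:ℝ) ≤ 1 - t)]
    have h1 : (1 - t) ^ k ≤ 1 := pow_le_one₀ (by linarith [ht.2]) (by linarith [ht.1])
    have h2 : ‖iteratedFDeriv ℝ (k + 1) F (w + t • (v - w)) (fun _ => v - w)‖ ≤
        A * ‖v - w‖ ^ (k + 1) := by
      refine (ContinuousMultilinearMap.le_opNorm _ _).trans ?_
      rw [Finset.prod_const, Finset.card_univ, Fintype.card_fin]
      exact mul_le_mul_of_nonneg_right (hA _ hin) (by positivity)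
    calc (1 - t) ^ k * ‖iteratedFDeriv ℝ (k + 1) F (w + t • (v - w)) (fun _ => v - w)‖
        ≤ 1 * (A * ‖v - w‖ ^ (k + 1)) := mul_le_mul h1 h2 (norm_nonneg _) zero_le_one
      _ = _ := one_mul _
  rw [sub_zero, abs_one, mul_one] at hint
  have hf : ((k.factorial : ℝ))⁻¹ ≤ 1 := inv_le_one_of_one_le₀ (by exact_mod_cast Nat.factorial_pos k)
  calc _ ≤ 1 * (A * ‖v - w‖ ^ (k + 1)) := mul_le_mul hf hint (norm_nonneg _) zero_le_one
    _ = _ := one_mul _

end Pool.Agent.R251.Lam
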